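import Mathlib

/-!
# Gaps in multiples of a nonmonic irreducible polynomial
-/

set_option autoImplicit false

namespace Pool.Agent.N773.ML

open Polynomial

/-- The key divisibility lemma for sequences: if `A * S = R + O(X ^ n)`, `p ∣ A 0`, `p ∤ A j` with `j ≤ d`, and
`k d ≤ n`, then `p ^ k ∣ R`. -/
lemma pow_dvd_of_mul (p : ℤ) (hp : Prime p) (A : PowerSeries ℤ) (d : ℕ)
    (h0 : p ∣ PowerSeries.coeff 0 A) (hd : ∃ j ≤ d, ¬ p ∣ PowerSeries.coeff j A) :
    ∀ (k n : ℕ) (R : ℤ) (S : PowerSeries ℤ), k * d ≤ n →
      (∀ i < n, PowerSeries.coeff i (A * S) = if i = 0 then R else 0) → p ^ k ∣ R := by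
  classical
  -- the least index
  obtain ⟨j, hjd, hj, hmin⟩ : ∃ j ≤ d, ¬ p ∣ PowerSeries.coeff j A ∧
      ∀ i < j, p ∣ PowerSeries.coeff i A := by
    refine ⟨Nat.find (p := fun j => ¬ p ∣ PowerSeries.coeff j A) (hd.imp fun j h => h.2), ?_,
      Nat.find_spec (p := fun j => ¬ p ∣ PowerSeries.coeff j A) _, ?_⟩
    · obtain ⟨j, h1, h2⟩ := hd
      exact (Nat.find_min' _ h2).trans h1
    · intro i hi
      by_contra h
      exact Nat.find_min (p := fun j => ¬ p ∣ PowerSeries.coeff j A) _ hi h
  have hj0 : 0 < j := by
    rcases Nat.eq_zero_or_pos j with h | h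
    · subst h; exact absurd h0 hj
    · exact h
  intro k
  induction k with
  | zero => intro n R S _ _; simp
  | succ k ih =>
    intro n R S hn hS
    have hd1 : 1 ≤ d := hj0.trans_le hjd
    have hn1 : 1 ≤ n := by
      have : (k + 1) * d = k * d + d := by ring
      omega
    have hR : p ∣ R := by
      have h1 := hS 0 hn1
      rw [PowerSeries.coeff_zero_eq_constantCoeff_apply, map_mul, if_pos rfl, ← PowerSeries.coeff_zero_eq_constantCoeff_apply, ← PowerSeries.coeff_zero_eq_constantCoeff_apply] at h1
      rw [← h1]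
      exact Dvd.dvd.mul_right h0 _
    obtain ⟨R', rfl⟩ := hR
    have hSp : ∀ i, i + j < n → p ∣ PowerSeries.coeff i S := by
      intro i
      induction i using Nat.strong_induction_on with
      | _ i IH =>
        intro hi
        have h1 := hS (i + j) hi
        rw [if_neg (by omega), PowerSeries.coeff_mul] at h1
        have hmem : (j, i) ∈ Finset.HasAntidiagonal.antidiagonal (i + j) := by
          rw [Finset.HasAntidiagonal.mem_antidiagonal]; ring
        rw [← Finset.add_sum_erase _ _ hmem] at h1
        have h2 : p ∣ ∑ x ∈ (Finset.HasAntidiagonal.antidiagonal (i + j)).erase (j, i),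
            PowerSeries.coeff x.1 A * PowerSeries.coeff x.2 S := by
          refine Finset.dvd_sum fun x hx => ?_
          rw [Finset.mem_erase, Finset.HasAntidiagonal.mem_antidiagonal] at hx
          rcases Nat.lt_trichotomy x.1 j with h | h | h
          · exact Dvd.dvd.mul_right (hmin _ h) _
          · exfalso
            apply hx.1
            ext
            · exact h
            · have := hx.2; simp only; omega
          · exact Dvd.dvd.mul_left (IH x.2 (by omega) (by omega)) _
        have h3 : p ∣ PowerSeries.coeff j A * PowerSeries.coeff i S := by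
          have h4 : PowerSeries.coeff j A * PowerSeries.coeff i S =
            -(∑ x ∈ (Finset.HasAntidiagonal.antidiagonal (i + j)).erase (j, i),
              PowerSeries.coeff x.1 A * PowerSeries.coeff x.2 S) := by
            linarith
          rw [h4]
          exact (dvd_neg).2 h2
        exact (hp.dvd_or_dvd h3).resolve_left hj
    -- the quotient
    set S' : PowerSeries ℤ := PowerSeries.mk fun i => PowerSeries.coeff i S / p with hS'
    have hp0 : p ≠ 0 := hp.ne_zero
    have hmul : ∀ i, i + j < n → p * PowerSeries.coeff i S' = PowerSeries.coeff i S := by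
      intro i hi
      rw [hS', PowerSeries.coeff_mk]
      exact Int.mul_ediv_cancel' (hSp i hi)
    have hIH : p ^ k ∣ R' := by
      refine ih (n - j) R' S' ?_ ?_
      · have : (k + 1) * d = k * d + d := by ring
        omega
      · intro i hi
        have h1 := hS i (by omega)
        rw [PowerSeries.coeff_mul] at h1 ⊢
        apply mul_left_cancel₀ hp0
        rw [Finset.mul_sum]
        have h2 : ∀ x ∈ Finset.HasAntidiagonal.antidiagonal i, p * (PowerSeries.coeff x.1 A * PowerSeries.coeff x.2 S') =
            PowerSeries.coeff x.1 A * PowerSeries.coeff x.2 S := by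
          intro x hx
          rw [Finset.HasAntidiagonal.mem_antidiagonal] at hx
          rw [← hmul x.2 (by omega)]
          ring
        rw [Finset.sum_congr rfl h2, h1]
        split_ifs <;> simp
    rw [pow_succ']
    exact mul_dvd_mul_left p hIH

/-- If `P` is primitive, `p` divides the leading coefficient of `P` and `P` divides `R X ^ N + E` with `E` of degree
at most `e < N`, then `p ^ k ∣ R` for `k deg P ≤ N - e`. -/
lemma pow_dvd_of_dvd (p : ℤ) (hp : Prime p) (P : ℤ[X]) (hprim : P.IsPrimitive) (hlc : p ∣ P.leadingCoeff)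
    (R : ℤ) (E : ℤ[X]) (N e : ℕ) (hE : E.natDegree ≤ e) (heN : e < N) (hdvd : P ∣ C R * X ^ N + E)
    (k : ℕ) (hk : k * P.natDegree ≤ N - e) : p ^ k ∣ R := by
  rcases eq_or_ne R 0 with rfl | hR
  · exact dvd_zero _
  obtain ⟨Q, hQ⟩ := hdvd
  set F := C R * X ^ N + E with hF
  have hFN : F.natDegree = N := by
    rw [hF, natDegree_add_eq_left_of_natDegree_lt]
    · exact natDegree_C_mul_X_pow N R hR
    · rw [natDegree_C_mul_X_pow N R hR]; omega
  have hF0 : F ≠ 0 := by
    intro h
    rw [h] at hFN
    simp at hFN
    omega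
  have hP0 : P ≠ 0 := by
    rintro rfl
    rw [zero_mul] at hQ
    exact hF0 hQ
  have hQ0 : Q ≠ 0 := by
    rintro rfl
    rw [mul_zero] at hQ
    exact hF0 hQ
  have hdeg : P.natDegree + Q.natDegree = N := by
    rw [← natDegree_mul hP0 hQ0, ← hQ, hFN]
  have hrefl : reflect N F = reflect P.natDegree P * reflect Q.natDegree Q := by
    rw [← reflect_mul P Q le_rfl le_rfl, hdeg, hQ]
  set A : PowerSeries ℤ := ((reflect P.natDegree P : ℤ[X]) : PowerSeries ℤ) with hA
  set S : PowerSeries ℤ := ((reflect Q.natDegree Q : ℤ[X]) : PowerSeries ℤ) with hS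
  have hcA : ∀ i ≤ P.natDegree, PowerSeries.coeff i A = P.coeff (P.natDegree - i) := by
    intro i hi
    rw [hA, Polynomial.coeff_coe, coeff_reflect, revAt_le hi]
  refine pow_dvd_of_mul p hp A P.natDegree ?_ ?_ k (N - e) R S hk ?_
  · rw [hcA 0 (Nat.zero_le _), Nat.sub_zero]
    exact hlc
  · by_contra hcon
    push Not at hcon
    have hall : C p ∣ P := by
      rw [C_dvd_iff_dvd_coeff]
      intro i
      rcases le_or_gt i P.natDegree with hi | hi
      · have h1 := hcon (P.natDegree - i) (Nat.sub_le _ _)
        rw [hcA _ (Nat.sub_le _ _)] at h1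
        have : P.natDegree - (P.natDegree - i) = i := by omega
        rwa [this] at h1
      · rw [coeff_eq_zero_of_natDegree_lt hi]
        exact dvd_zero _
    exact hp.not_isUnit (hprim p hall)
  · intro i hi
    have h1 : A * S = ((reflect N F : ℤ[X]) : PowerSeries ℤ) := by
      rw [hA, hS, hrefl, Polynomial.coe_mul]
    rw [h1, Polynomial.coeff_coe, coeff_reflect, revAt_le (by omega), hF, coeff_add, coeff_C_mul,
      coeff_X_pow]
    have h2 : E.coeff (N - i) = 0 := coeff_eq_zero_of_natDegree_lt (by omega)
    rw [h2, add_zero]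
    rcases Nat.eq_zero_or_pos i with h | h
    · subst h; simp
    · rw [if_neg (by omega), if_neg (by omega), mul_zero]

end Pool.Agent.N773.ML
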