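import Mathlib
import Pool.Agent.N773.ML.Gap

/-!
# The gap lemma
-/

set_option autoImplicit false

namespace Pool.Agent.N773.ML

open Polynomial

/-- The resultant of an irreducible polynomial of positive degree and a polynomial which is not a multiple of it is
not zero. -/
lemma res_ne_zero {P H : ℤ[X]} (hP : Irreducible P) (hd : P.natDegree ≠ 0) (hPH : ¬ P ∣ H) :
    resultant P H ≠ 0 := by
  have hprim : P.IsPrimitive := hP.isPrimitive hd
  intro h0
  have hinj : Function.Injective (Int.castRingHom ℚ) := Int.cast_injective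
  have h1 : resultant (P.map (Int.castRingHom ℚ)) (H.map (Int.castRingHom ℚ)) = 0 := by
    rw [natDegree_map_eq_of_injective hinj, natDegree_map_eq_of_injective hinj, resultant_map_map, h0, map_zero]
  rw [resultant_eq_zero_iff] at h1
  have hirr : Irreducible (P.map (Int.castRingHom ℚ)) :=
    (IsPrimitive.Int.irreducible_iff_irreducible_map_cast hprim).1 hP
  have h2 : P.map (Int.castRingHom ℚ) ∣ H.map (Int.castRingHom ℚ) := by
    by_contra hcon
    exact h1.2 ((hirr.coprime_iff_not_dvd).2 hcon)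
  exact hPH ((IsPrimitive.Int.dvd_iff_map_cast_dvd_map_cast _ _ hprim).2 h2)

/-- Bound for the resultant. -/
lemma res_le (P H : ℤ[X]) (B : ℕ) (hP : ∀ i, (P.coeff i).natAbs ≤ B) (hH : ∀ i, (H.coeff i).natAbs ≤ B) :
    (resultant P H).natAbs ≤ ((P.natDegree + H.natDegree) * B) ^ (P.natDegree + H.natDegree) := by
  have h1 : ∀ i j, AbsoluteValue.abs (sylvester P H P.natDegree H.natDegree i j) ≤ (B : ℤ) := by
    intro i j
    rw [AbsoluteValue.abs_apply]
    unfold sylvester
    rw [Matrix.of_apply]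
    induction j using Fin.addCases with
    | left j =>
      rw [Fin.addCases_left]
      split_ifs
      · have h := hH (i - j)
        rw [Int.abs_eq_natAbs]
        exact_mod_cast h
      · simp
    | right j =>
      rw [Fin.addCases_right]
      split_ifs
      · have h := hP (i - j)
        rw [Int.abs_eq_natAbs]
        exact_mod_cast h
      · simp
  have h2 := Matrix.det_le h1
  rw [Fintype.card_fin, AbsoluteValue.abs_apply, nsmul_eq_mul] at h2
  have h3 : ((resultant P H).natAbs : ℤ) ≤
      ((P.natDegree + H.natDegree).factorial * B ^ (P.natDegree + H.natDegree) : ℕ) := by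
    rw [Int.natCast_natAbs]
    push_cast
    exact h2
  have h4 : (resultant P H).natAbs ≤
      (P.natDegree + H.natDegree).factorial * B ^ (P.natDegree + H.natDegree) := by exact_mod_cast h3
  refine h4.trans ?_
  rw [mul_pow]
  exact Nat.mul_le_mul_right _ (Nat.factorial_le_pow _)

/-- The bound for the gaps. -/
def gap (δ B h : ℕ) : ℕ := δ * (((δ + h) * B) ^ (δ + h) + 1)

lemma gap_mono {δ δ' B B' h h' : ℕ} (h0 : 0 < δ) (hB : 0 < B) (h1 : δ ≤ δ') (h2 : B ≤ B') (h3 : h ≤ h') :
    gap δ B h ≤ gap δ' B' h' := by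
  unfold gap
  refine Nat.mul_le_mul h1 (Nat.succ_le_succ ?_)
  calc ((δ + h) * B) ^ (δ + h) ≤ ((δ' + h') * B') ^ (δ + h) :=
        Nat.pow_le_pow_left (Nat.mul_le_mul (by omega) h2) _
    _ ≤ ((δ' + h') * B') ^ (δ' + h') := by
        refine Nat.pow_le_pow_right ?_ (by omega)
        exact Nat.mul_pos (by omega) (by omega)

/-- The gap lemma: if `P` is irreducible, a prime divides the leading coefficient, `P` divides `X ^ n H + G` with
`deg G < n`, and `P` does not divide `H`, then `n - deg G` is bounded. -/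
lemma gap_lemma {P H G : ℤ[X]} (hP : Irreducible P) (hd : P.natDegree ≠ 0) (hlc : ¬ IsUnit P.leadingCoeff)
    (hPH : ¬ P ∣ H) (B : ℕ) (hPB : ∀ i, (P.coeff i).natAbs ≤ B) (hHB : ∀ i, (H.coeff i).natAbs ≤ B)
    (n : ℕ) (hdvd : P ∣ X ^ n * H + G) :
    n ≤ G.natDegree + gap P.natDegree B H.natDegree := by
  have hprim : P.IsPrimitive := hP.isPrimitive hd
  have hP0 : P ≠ 0 := hP.ne_zero
  have hlc0 : P.leadingCoeff ≠ 0 := leadingCoeff_ne_zero.2 hP0
  obtain ⟨p, hp, hpd⟩ : ∃ p : ℤ, Prime p ∧ p ∣ P.leadingCoeff := by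
    obtain ⟨q, hq, h⟩ := WfDvdMonoid.exists_irreducible_factor hlc hlc0
    exact ⟨q, hq.prime, h⟩
  have hp2 : 2 ≤ p.natAbs := by
    have h1 := Int.prime_iff_natAbs_prime.1 hp
    exact h1.two_le
  set R := resultant P H with hR
  have hR0 : R ≠ 0 := res_ne_zero hP hd hPH
  obtain ⟨u, v, -, hv, huv⟩ := exists_mul_add_mul_eq_C_resultant (m := P.natDegree) (n := H.natDegree) P H le_rfl
    le_rfl (Or.inl hd)
  have hvd : v.natDegree ≤ P.natDegree - 1 := by
    rcases eq_or_ne v 0 with h | h
    · rw [h]; simp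
    · rw [degree_eq_natDegree h] at hv
      have : v.natDegree < P.natDegree := by exact_mod_cast hv
      omega
  have hdiv : P ∣ C R * X ^ n + v * G := by
    obtain ⟨w, hw⟩ := hdvd
    refine ⟨X ^ n * u + v * w, ?_⟩
    rw [hR, ← huv]
    calc (P * u + H * v) * X ^ n + v * G = P * (X ^ n * u) + v * (X ^ n * H + G) := by ring
      _ = P * (X ^ n * u + v * w) := by rw [hw]; ring
  set e := G.natDegree + (P.natDegree - 1) with he
  have hE : (v * G).natDegree ≤ e := by
    refine natDegree_mul_le.trans ?_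
    omega
  set K := ((P.natDegree + H.natDegree) * B) ^ (P.natDegree + H.natDegree) with hK
  have hRK : R.natAbs ≤ K := res_le P H B hPB hHB
  have hgap : gap P.natDegree B H.natDegree = P.natDegree * (K + 1) := rfl
  rw [hgap]
  rcases Nat.lt_or_ge e n with hlt | hge
  · by_contra hcon
    push Not at hcon
    have hk : K * P.natDegree ≤ n - e := by
      have : P.natDegree * (K + 1) = K * P.natDegree + P.natDegree := by ring
      omega
    have h1 := pow_dvd_of_dvd p hp P hprim hpd R (v * G) n e hE hlt hdiv K hk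
    have h2 : p.natAbs ^ K ≤ R.natAbs := by
      rw [← Int.natAbs_pow]
      exact Nat.le_of_dvd (Int.natAbs_pos.2 hR0) (Int.natAbs_dvd_natAbs.2 h1)
    have h3 : 2 ^ K ≤ p.natAbs ^ K := Nat.pow_le_pow_left hp2 K
    have h4 : K < 2 ^ K := Nat.lt_two_pow_self
    omega
  · have h1 : P.natDegree ≤ P.natDegree * (K + 1) := Nat.le_mul_of_pos_right _ (Nat.succ_pos _)
    omega

end Pool.Agent.N773.ML
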