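import Mathlib
import Pool.Agent.N773.ML.Res

/-!
# The degree of a minimum-length multiple of least degree
-/

set_option autoImplicit false

namespace Pool.Agent.N773.ML

open Polynomial

/-- The length, as a natural number. -/
noncomputable def len (F : ℤ[X]) : ℕ := ∑ i ∈ F.support, (F.coeff i).natAbs

lemma len_eq_range (F : ℤ[X]) (N : ℕ) (h : F.natDegree < N) :
    len F = ∑ i ∈ Finset.range N, (F.coeff i).natAbs := by
  unfold len
  refine Finset.sum_subset ?_ ?_
  · intro i hi
    rw [Finset.mem_range]
    exact (le_natDegree_of_mem_supp i hi).trans_lt h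
  · intro i _ hi
    rw [notMem_support_iff.1 hi]
    rfl

lemma coeff_le_len (F : ℤ[X]) (i : ℕ) : (F.coeff i).natAbs ≤ len F := by
  by_cases hi : i ∈ F.support
  · exact Finset.single_le_sum (f := fun i => (F.coeff i).natAbs) (fun _ _ => Nat.zero_le _) hi
  · rw [notMem_support_iff.1 hi]
    exact Nat.zero_le _

lemma card_le_len (F : ℤ[X]) : F.support.card ≤ len F := by
  unfold len
  rw [Finset.card_eq_sum_ones]
  refine Finset.sum_le_sum fun i hi => ?_
  have := mem_support_iff.1 hi
  omega

lemma len_pos {F : ℤ[X]} (h : F ≠ 0) : 0 < len F :=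
  (Finset.card_pos.2 (support_nonempty.2 h)).trans_le (card_le_len F)

lemma len_zero : len 0 = 0 := by simp [len]

/-- The splitting of a polynomial at `s`. -/
lemma split (F : ℤ[X]) (s : ℕ) : ∃ H G : ℤ[X], F = X ^ s * H + G ∧ (∀ i, H.coeff i = F.coeff (i + s)) ∧
    (∀ i, G.coeff i = if i < s then F.coeff i else 0) := by
  classical
  refine ⟨divX^[s] F, F - X ^ s * divX^[s] F, by ring, ?_, ?_⟩
  · intro i
    induction s generalizing i with
    | zero => rfl
    | succ s ih =>
      rw [Function.iterate_succ', Function.comp_apply, coeff_divX, ih]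
      congr 1
      ring
  · have hc : ∀ i, (divX^[s] F).coeff i = F.coeff (i + s) := by
      intro i
      induction s generalizing i with
      | zero => rfl
      | succ s ih =>
        rw [Function.iterate_succ', Function.comp_apply, coeff_divX, ih]
        congr 1
        ring
    intro i
    rw [coeff_sub, coeff_X_pow_mul']
    split_ifs with h1 h2 h2
    · omega
    · rw [hc]
      have : i - s + s = i := by omega
      rw [this, sub_self]
    · rw [sub_zero]
    · omega

lemma len_split {F H G : ℤ[X]} {s : ℕ} (hH : ∀ i, H.coeff i = F.coeff (i + s))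
    (hG : ∀ i, G.coeff i = if i < s then F.coeff i else 0) : len F = len H + len G := by
  obtain ⟨M, hM⟩ : ∃ M, M = F.natDegree + H.natDegree + G.natDegree + 1 := ⟨_, rfl⟩
  rw [len_eq_range F (s + M) (by omega), len_eq_range H M (by omega), len_eq_range G (s + M) (by omega),
    Finset.sum_range_add, Finset.sum_range_add]
  have h1 : ∑ x ∈ Finset.range s, (F.coeff x).natAbs = ∑ x ∈ Finset.range s, (G.coeff x).natAbs := by
    refine Finset.sum_congr rfl fun i hi => ?_
    rw [hG, if_pos (Finset.mem_range.1 hi)]
  have h2 : ∑ x ∈ Finset.range M, (F.coeff (s + x)).natAbs = ∑ x ∈ Finset.range M, (H.coeff x).natAbs := by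
    refine Finset.sum_congr rfl fun i _ => ?_
    rw [hH, add_comm]
  have h3 : ∑ x ∈ Finset.range M, (G.coeff (s + x)).natAbs = 0 := by
    refine Finset.sum_eq_zero fun i _ => ?_
    rw [hG, if_neg (by omega)]
    rfl
  rw [h1, h2, h3]
  ring

/-- `F` is a multiple of `P` of least length, and of least degree among these. -/
structure IsMin (P F : ℤ[X]) : Prop where
  ne : F ≠ 0
  dvd : P ∣ F
  len_le : ∀ F' : ℤ[X], F' ≠ 0 → P ∣ F' → len F ≤ len F'
  deg_le : ∀ F' : ℤ[X], F' ≠ 0 → P ∣ F' → len F' = len F → F.natDegree ≤ F'.natDegree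

lemma exists_isMin {P : ℤ[X]} (hP : P ≠ 0) : ∃ F, IsMin P F := by
  classical
  have h1 : ∃ l : ℕ, ∃ F : ℤ[X], F ≠ 0 ∧ P ∣ F ∧ len F = l := ⟨len P, P, hP, dvd_rfl, rfl⟩
  set l := Nat.find h1 with hl
  have hlmin : ∀ F' : ℤ[X], F' ≠ 0 → P ∣ F' → l ≤ len F' := fun F' h2 h3 =>
    Nat.find_min' h1 ⟨F', h2, h3, rfl⟩
  have h2 : ∃ d : ℕ, ∃ F : ℤ[X], F ≠ 0 ∧ P ∣ F ∧ len F = l ∧ F.natDegree = d := by
    obtain ⟨F, h3, h4, h5⟩ := Nat.find_spec h1
    exact ⟨_, F, h3, h4, h5, rfl⟩
  obtain ⟨F, h3, h4, h5, h6⟩ := Nat.find_spec h2
  refine ⟨F, h3, h4, fun F' h7 h8 => h5 ▸ hlmin F' h7 h8, fun F' h7 h8 h9 => ?_⟩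
  rw [h6]
  exact Nat.find_min' h2 ⟨F', h7, h8, h9.trans h5, rfl⟩

/-- The step function of the bound for the degree. -/
def step (δ B h : ℕ) : ℕ := h + gap δ B h

/-- The bound for the degree. -/
def bound (δ B : ℕ) : ℕ := (step δ B)^[B] 0

lemma not_dvd_X {P : ℤ[X]} (hlc : ¬ IsUnit P.leadingCoeff) : ¬ P ∣ X := by
  rintro ⟨Q, hQ⟩
  apply hlc
  have h1 : leadingCoeff (X : ℤ[X]) = P.leadingCoeff * Q.leadingCoeff := by rw [hQ, leadingCoeff_mul]
  rw [leadingCoeff_X] at h1
  exact IsUnit.of_mul_eq_one _ h1.symm

/-- The degree of a multiple of least length and least degree is bounded. -/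
theorem degree_bound {P F : ℤ[X]} (hP : Irreducible P) (hd : P.natDegree ≠ 0) (hlc : ¬ IsUnit P.leadingCoeff)
    (hF : IsMin P F) {δ B : ℕ} (hδ : P.natDegree ≤ δ) (hB : len P ≤ B) : F.natDegree ≤ bound δ B := by
  classical
  have hP0 : P ≠ 0 := hP.ne_zero
  have hFP : len F ≤ len P := hF.len_le P hP0 dvd_rfl
  have hB0 : 0 < B := (len_pos hP0).trans_le hB
  set n := F.natDegree with hn
  set D : ℕ → ℕ := fun j => (step δ B)^[j] 0 with hD
  have hD1 : ∀ j, D (j + 1) = D j + gap δ B (D j) := by
    intro j
    simp only [hD]
    rw [Function.iterate_succ', Function.comp_apply]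
    rfl
  set W : ℕ → Finset ℕ := fun j => F.support.filter (fun i => n ≤ i + D j) with hW
  have hnF : n ∈ F.support := natDegree_mem_support_of_nonzero hF.ne
  have key : ∀ j, n ≤ D j ∨ j + 1 ≤ (W j).card := by
    intro j
    induction j with
    | zero =>
      right
      refine Finset.card_pos.2 ⟨n, ?_⟩
      rw [hW, Finset.mem_filter]
      exact ⟨hnF, by omega⟩
    | succ j ih =>
      rcases Nat.lt_or_ge (D (j + 1)) n with hlt | hge
      swap
      · left; exact hge
      right
      have hlt' : D j < n := by
        have := hD1 j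
        omega
      have hcard : j + 1 ≤ (W j).card := by
        rcases ih with h | h
        · omega
        · exact h
      have hne : (W j).Nonempty := Finset.card_pos.1 (by omega)
      set s := (W j).min' hne with hs
      have hsW : s ∈ W j := Finset.min'_mem _ _
      have hsmin : ∀ i ∈ W j, s ≤ i := fun i hi => Finset.min'_le _ _ hi
      rw [hW] at hsW
      rw [Finset.mem_filter] at hsW
      obtain ⟨hsF, hsn⟩ := hsW
      have hsn' : s ≤ n := le_natDegree_of_mem_supp s hsF
      have hs0 : 0 < s := by omega
      obtain ⟨H, G, hFHG, hHc, hGc⟩ := split F s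
      have hlen := len_split hHc hGc
      have hHn : H.natDegree = n - s := by
        apply natDegree_eq_of_le_of_coeff_ne_zero
        · rw [natDegree_le_iff_coeff_eq_zero]
          intro N hN
          rw [hHc]
          exact coeff_eq_zero_of_natDegree_lt (by omega)
        · rw [hHc]
          have : n - s + s = n := by omega
          rw [this]
          exact mem_support_iff.1 hnF
      have hH0 : H ≠ 0 := by
        intro h
        have h1 := hHc (n - s)
        have : n - s + s = n := by omega
        rw [this, h, coeff_zero] at h1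
        exact mem_support_iff.1 hnF h1.symm
      rcases eq_or_ne G 0 with hG0 | hG0
      · exfalso
        have hPprime : Prime P := hP.prime
        have hPH : P ∣ H := by
          have h1 : P ∣ X ^ s * H := by
            have h2 := hF.dvd
            rw [hFHG, hG0, add_zero] at h2
            exact h2
          rcases hPprime.dvd_or_dvd h1 with h2 | h2
          · exact absurd (hPprime.dvd_of_dvd_pow h2) (not_dvd_X hlc)
          · exact h2
        have h3 := hF.deg_le H hH0 hPH (by rw [hlen, hG0, len_zero, add_zero])
        omega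
      · have hGdeg : G.natDegree < s := by
          by_contra hcon
          push Not at hcon
          have h1 := hGc G.natDegree
          rw [if_neg (by omega)] at h1
          exact hG0 (leadingCoeff_eq_zero.1 h1)
        have hGF : G.natDegree ∈ F.support := by
          rw [mem_support_iff]
          have h1 := hGc G.natDegree
          rw [if_pos hGdeg] at h1
          rw [← h1]
          exact leadingCoeff_ne_zero.2 hG0
        have hPH : ¬ P ∣ H := by
          intro h
          have h1 := hF.len_le H hH0 h
          have h2 := len_pos hG0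
          omega
        have hgap := gap_lemma hP hd hlc hPH B (fun i => (coeff_le_len P i).trans hB)
          (fun i => by
            have h1 := coeff_le_len F (i + s)
            rw [hHc]
            omega) s (hFHG ▸ hF.dvd)
        have hgap2 : gap P.natDegree B H.natDegree ≤ gap δ B (D j) :=
          gap_mono (Nat.pos_of_ne_zero hd) hB0 hδ le_rfl (by omega)
        have hnew : G.natDegree ∈ W (j + 1) := by
          rw [hW, Finset.mem_filter]
          refine ⟨hGF, ?_⟩
          have := hD1 j
          omega
        have hsub : W j ⊆ W (j + 1) := by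
          intro i hi
          rw [hW, Finset.mem_filter] at hi ⊢
          refine ⟨hi.1, ?_⟩
          have := hD1 j
          omega
        have hnot : G.natDegree ∉ W j := by
          intro h
          have := hsmin _ h
          omega
        have h5 : insert G.natDegree (W j) ⊆ W (j + 1) := Finset.insert_subset hnew hsub
        have h6 := Finset.card_le_card h5
        rw [Finset.card_insert_of_notMem hnot] at h6
        omega
  rcases key B with h | h
  · exact h
  · exfalso
    have h1 : (W B).card ≤ F.support.card := Finset.card_filter_le _ _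
    have h2 := card_le_len F
    omega

/-- Bound for the coefficients of a factor. -/
theorem coeff_bound {P T : ℤ[X]} (hP0 : P.coeff 0 ≠ 0) {B : ℕ} (hB : len P ≤ B) (hPT : len (P * T) ≤ B) (i : ℕ) :
    (T.coeff i).natAbs ≤ B * (B + 1) ^ i := by
  classical
  induction i using Nat.strong_induction_on with
  | _ i ih =>
    have h1 : (P * T).coeff i = P.coeff 0 * T.coeff i + ∑ x ∈ (Finset.HasAntidiagonal.antidiagonal i).erase (0, i),
        P.coeff x.1 * T.coeff x.2 := by
      have hmem : ((0 : ℕ), i) ∈ Finset.HasAntidiagonal.antidiagonal i := by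
        rw [Finset.HasAntidiagonal.mem_antidiagonal]; simp
      rw [coeff_mul]
      exact (Finset.add_sum_erase (Finset.HasAntidiagonal.antidiagonal i)
        (fun x : ℕ × ℕ => P.coeff x.1 * T.coeff x.2) hmem).symm
    have h2 : (T.coeff i).natAbs ≤ (P.coeff 0 * T.coeff i).natAbs := by
      rw [Int.natAbs_mul]
      exact Nat.le_mul_of_pos_left _ (Int.natAbs_pos.2 hP0)
    have h3 : (P.coeff 0 * T.coeff i).natAbs ≤ ((P * T).coeff i).natAbs +
        (∑ x ∈ (Finset.HasAntidiagonal.antidiagonal i).erase (0, i), P.coeff x.1 * T.coeff x.2).natAbs := by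
      omega
    have h4 : ((P * T).coeff i).natAbs ≤ B := (coeff_le_len _ _).trans hPT
    rcases Nat.eq_zero_or_pos i with hi | hi
    · subst hi
      have h5 : (((Finset.HasAntidiagonal.antidiagonal (0 : ℕ)) : Finset (ℕ × ℕ)).erase (0, 0)) = ∅ := by
        ext x
        simp only [Finset.mem_erase, Finset.HasAntidiagonal.mem_antidiagonal, Finset.notMem_empty, iff_false,
          not_and]
        intro hx h6
        apply hx
        ext <;> simp <;> omega
      rw [h5, Finset.sum_empty] at h3
      simp only [pow_zero, mul_one]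
      simp only [Int.natAbs_zero, add_zero] at h3
      omega
    · have h5 : (∑ x ∈ (Finset.HasAntidiagonal.antidiagonal i).erase (0, i), P.coeff x.1 * T.coeff x.2).natAbs ≤
          ∑ x ∈ (Finset.HasAntidiagonal.antidiagonal i).erase (0, i),
            (P.coeff x.1).natAbs * (B * (B + 1) ^ (i - 1)) := by
        refine (Int.natAbs_sum_le _ _).trans (Finset.sum_le_sum fun x hx => ?_)
        rw [Int.natAbs_mul]
        refine Nat.mul_le_mul_left _ ?_
        rw [Finset.mem_erase, Finset.HasAntidiagonal.mem_antidiagonal] at hx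
        have hx2 : x.2 < i := by
          by_contra hcon
          apply hx.1
          ext
          · simp; omega
          · simp; omega
        refine (ih x.2 hx2).trans (Nat.mul_le_mul_left _ ?_)
        exact Nat.pow_le_pow_right (by omega) (by omega)
      have h6 : ∑ x ∈ (Finset.HasAntidiagonal.antidiagonal i).erase (0, i), (P.coeff x.1).natAbs ≤ len P := by
        set M := i + P.natDegree + 1 with hM
        rw [len_eq_range P M (by omega)]
        have h7 : ∑ x ∈ (Finset.HasAntidiagonal.antidiagonal i).erase (0, i), (P.coeff x.1).natAbs ≤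
            ∑ x ∈ Finset.HasAntidiagonal.antidiagonal i, (P.coeff x.1).natAbs :=
          Finset.sum_le_sum_of_subset (Finset.erase_subset _ _)
        refine h7.trans ?_
        have h8 : ∑ x ∈ Finset.HasAntidiagonal.antidiagonal i, (P.coeff x.1).natAbs =
            ∑ k ∈ Finset.range (i + 1), (P.coeff k).natAbs :=
          Finset.Nat.sum_antidiagonal_eq_sum_range_succ_mk (fun x => (P.coeff x.1).natAbs) i
        rw [h8]
        exact Finset.sum_le_sum_of_subset (Finset.range_subset_range.2 (by omega))
      rw [← Finset.sum_mul] at h5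
      have h9 : (∑ x ∈ (Finset.HasAntidiagonal.antidiagonal i).erase (0, i), (P.coeff x.1).natAbs) *
          (B * (B + 1) ^ (i - 1)) ≤ B * (B * (B + 1) ^ (i - 1)) := Nat.mul_le_mul_right _ (h6.trans hB)
      have h10 : B * (B + 1) ^ i = B * (B * (B + 1) ^ (i - 1)) + B * (B + 1) ^ (i - 1) := by
        obtain ⟨k, rfl⟩ : ∃ k, i = k + 1 := ⟨i - 1, by omega⟩
        simp only [Nat.add_sub_cancel]
        ring
      have h11 : B ≤ B * (B + 1) ^ (i - 1) := Nat.le_mul_of_pos_right _ (by positivity)
      omega

end Pool.Agent.N773.ML
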