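import Mathlib
import Pool.Agent.N773.ML.Min
import Pool.Agent.N773.ML.Prim

/-!
# The algorithm
-/

set_option autoImplicit false

namespace Pool.Agent.N773.ML

open Polynomial

/-- The polynomial with the coefficients `l` (constant term first). -/
noncomputable def poly (l : List ℤ) : ℤ[X] := ∑ i ∈ Finset.range l.length, C (l.getD i 0) * X ^ i

lemma coeff_sumP (n : ℕ) (a : ℕ → ℤ) (i : ℕ) :
    (∑ i ∈ Finset.range n, C (a i) * X ^ i : ℤ[X]).coeff i = if i < n then a i else 0 := by
  rw [finsetSum_coeff]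
  simp only [coeff_C_mul, coeff_X_pow, mul_ite, mul_one, mul_zero]
  rw [Finset.sum_ite_eq]
  simp only [Finset.mem_range]

lemma coeff_poly (l : List ℤ) (i : ℕ) : (poly l).coeff i = l.getD i 0 := by
  unfold poly
  rw [coeff_sumP]
  split_ifs with h
  · rfl
  · rw [List.getD_eq_default]
    omega

lemma natDegree_sumP_lt (n : ℕ) (a : ℕ → ℤ) (hn : 0 < n) :
    (∑ i ∈ Finset.range n, C (a i) * X ^ i : ℤ[X]).natDegree < n := by
  have h : (∑ i ∈ Finset.range n, C (a i) * X ^ i : ℤ[X]).natDegree ≤ n - 1 := by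
    rw [natDegree_le_iff_coeff_eq_zero]
    intro N hN
    rw [coeff_sumP, if_neg (by omega)]
  omega

/-! ### The functions -/

def bB (l : List ℤ) : ℕ := ∑ i ∈ Finset.range l.length, (l.getD i 0).natAbs
def bD (l : List ℤ) : ℕ := bound l.length (bB l)
def bC (l : List ℤ) : ℕ := bB l * (bB l + 1) ^ bD l
def bW (l : List ℤ) : ℕ := (2 * bC l + 1) ^ (bD l + 1)

/-- The coefficients of the factor with code `t`. -/
def tau (l : List ℤ) (t i : ℕ) : ℤ :=
  if i < bD l + 1 then ((t / (2 * bC l + 1) ^ i % (2 * bC l + 1) : ℕ) : ℤ) - (bC l : ℕ) else 0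

/-- The coefficients of the product. -/
def fcoef (l : List ℤ) (t k : ℕ) : ℤ := ∑ i ∈ Finset.range (k + 1), l.getD i 0 * tau l t (k - i)

/-- The length of the product. -/
def lam (l : List ℤ) (t : ℕ) : ℕ := ∑ k ∈ Finset.range (l.length + (bD l + 1)), (fcoef l t k).natAbs

/-- Comparison. -/
def better (l : List ℤ) (t s : ℕ) : ℕ :=
  if lam l t ≠ 0 ∧ (lam l s = 0 ∨ lam l t < lam l s) then t else s

/-- The best code below `n`. -/
def best (l : List ℤ) (n : ℕ) : ℕ := Nat.rec (motive := fun _ => ℕ) 0 (fun t s => better l t s) n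

/-- The algorithm. -/
def alg (l : List ℤ) : List ℤ :=
  (List.range (l.length + (bD l + 1))).map fun k => fcoef l (best l (bW l)) k

/-! ### They are primitive recursive -/

lemma prim_getD : Primrec₂ (fun (l : List ℤ) (i : ℕ) => l.getD i 0) := Primrec.list_getD 0

lemma prim_bB : Primrec bB :=
  prim_sumN Primrec.list_length (prim_natAbs.comp (prim_getD.comp Primrec.fst Primrec.snd))

lemma prim_gap : Primrec (fun a : (ℕ × ℕ) × ℕ => gap a.1.1 a.1.2 a.2) := by
  have hδ : Primrec (fun a : (ℕ × ℕ) × ℕ => a.1.1) := Primrec.fst.comp Primrec.fst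
  have hB : Primrec (fun a : (ℕ × ℕ) × ℕ => a.1.2) := Primrec.snd.comp Primrec.fst
  have hh : Primrec (fun a : (ℕ × ℕ) × ℕ => a.2) := Primrec.snd
  have hs : Primrec (fun a : (ℕ × ℕ) × ℕ => a.1.1 + a.2) := Primrec.nat_add.comp hδ hh
  exact Primrec.nat_mul.comp hδ (Primrec.succ.comp (prim_pow.comp (Primrec.nat_mul.comp hs hB) hs))

lemma prim_bound : Primrec₂ bound := by
  have h : Primrec (fun a : ℕ × ℕ => (step a.1 a.2)^[a.2] 0) := by
    refine Primrec.nat_iterate (f := fun a : ℕ × ℕ => a.2) (g := fun _ => 0)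
      (h := fun a h => step a.1 a.2 h) Primrec.snd (Primrec.const 0) ?_
    exact Primrec.nat_add.comp Primrec.snd (prim_gap.comp (Primrec.pair Primrec.fst Primrec.snd))
  exact h

lemma prim_bD : Primrec bD := prim_bound.comp Primrec.list_length prim_bB

lemma prim_bC : Primrec bC :=
  Primrec.nat_mul.comp prim_bB (prim_pow.comp (Primrec.succ.comp prim_bB) prim_bD)

lemma prim_base : Primrec (fun l : List ℤ => 2 * bC l + 1) :=
  Primrec.succ.comp (Primrec.nat_mul.comp (Primrec.const 2) prim_bC)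

lemma prim_bW : Primrec bW := prim_pow.comp prim_base (Primrec.succ.comp prim_bD)

lemma prim_tau : Primrec (fun a : (List ℤ × ℕ) × ℕ => tau a.1.1 a.1.2 a.2) := by
  have hl : Primrec (fun a : (List ℤ × ℕ) × ℕ => a.1.1) := Primrec.fst.comp Primrec.fst
  have ht : Primrec (fun a : (List ℤ × ℕ) × ℕ => a.1.2) := Primrec.snd.comp Primrec.fst
  have hi : Primrec (fun a : (List ℤ × ℕ) × ℕ => a.2) := Primrec.snd
  refine Primrec.ite ?_ ?_ (Primrec.const 0)
  · exact Primrec.nat_lt.comp hi (Primrec.succ.comp (prim_bD.comp hl))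
  · exact prim_natSub.comp (Primrec.nat_mod.comp (Primrec.nat_div.comp ht (prim_pow.comp (prim_base.comp hl) hi))
      (prim_base.comp hl)) (prim_bC.comp hl)

lemma prim_fcoef : Primrec (fun a : (List ℤ × ℕ) × ℕ => fcoef a.1.1 a.1.2 a.2) := by
  refine prim_sumZ (α := (List ℤ × ℕ) × ℕ) (n := fun a => a.2 + 1)
    (g := fun a i => a.1.1.getD i 0 * tau a.1.1 a.1.2 (a.2 - i)) (Primrec.succ.comp Primrec.snd) ?_
  have hl : Primrec (fun a : ((List ℤ × ℕ) × ℕ) × ℕ => a.1.1.1) :=
    Primrec.fst.comp (Primrec.fst.comp Primrec.fst)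
  have ht : Primrec (fun a : ((List ℤ × ℕ) × ℕ) × ℕ => a.1.1.2) :=
    Primrec.snd.comp (Primrec.fst.comp Primrec.fst)
  have hk : Primrec (fun a : ((List ℤ × ℕ) × ℕ) × ℕ => a.1.2) := Primrec.snd.comp Primrec.fst
  have hi : Primrec (fun a : ((List ℤ × ℕ) × ℕ) × ℕ => a.2) := Primrec.snd
  exact prim_int_mul.comp (prim_getD.comp hl hi)
    (prim_tau.comp (Primrec.pair (Primrec.pair hl ht) (Primrec.nat_sub.comp hk hi)))

lemma prim_size : Primrec (fun l : List ℤ => l.length + (bD l + 1)) :=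
  Primrec.nat_add.comp Primrec.list_length (Primrec.succ.comp prim_bD)

lemma prim_lam : Primrec₂ lam := by
  refine prim_sumN (α := List ℤ × ℕ) (n := fun a => a.1.length + (bD a.1 + 1))
    (g := fun a k => (fcoef a.1 a.2 k).natAbs) (prim_size.comp Primrec.fst) ?_
  exact prim_natAbs.comp prim_fcoef

lemma prim_better : Primrec (fun a : List ℤ × (ℕ × ℕ) => better a.1 a.2.1 a.2.2) := by
  have hl : Primrec (fun a : List ℤ × (ℕ × ℕ) => a.1) := Primrec.fst
  have ht : Primrec (fun a : List ℤ × (ℕ × ℕ) => a.2.1) := Primrec.fst.comp Primrec.snd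
  have hs : Primrec (fun a : List ℤ × (ℕ × ℕ) => a.2.2) := Primrec.snd.comp Primrec.snd
  have h1 : PrimrecPred (fun a : List ℤ × (ℕ × ℕ) => lam a.1 a.2.1 = 0) :=
    Primrec.eq.comp (prim_lam.comp hl ht) (Primrec.const 0)
  have h2 : PrimrecPred (fun a : List ℤ × (ℕ × ℕ) => lam a.1 a.2.2 = 0) :=
    Primrec.eq.comp (prim_lam.comp hl hs) (Primrec.const 0)
  have h3 : PrimrecPred (fun a : List ℤ × (ℕ × ℕ) => lam a.1 a.2.1 < lam a.1 a.2.2) :=
    Primrec.nat_lt.comp (prim_lam.comp hl ht) (prim_lam.comp hl hs)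
  have h4 : PrimrecPred (fun a : List ℤ × (ℕ × ℕ) => lam a.1 a.2.1 ≠ 0 ∧
      (lam a.1 a.2.2 = 0 ∨ lam a.1 a.2.1 < lam a.1 a.2.2)) := h1.not.and (h2.or h3)
  exact Primrec.ite h4 ht hs

lemma prim_best : Primrec₂ best := by
  have hb : Primrec (fun q : (List ℤ × ℕ) × (ℕ × ℕ) => better q.1.1 q.2.1 q.2.2) :=
    prim_better.comp (g := fun q : (List ℤ × ℕ) × (ℕ × ℕ) => (q.1.1, q.2))
      (Primrec.pair (Primrec.fst.comp Primrec.fst) Primrec.snd)
  have hb2 : Primrec₂ (fun (a : List ℤ × ℕ) (p : ℕ × ℕ) => better a.1 p.1 p.2) := hb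
  have h := Primrec.nat_rec' (f := fun a : List ℤ × ℕ => a.2) (g := fun _ => 0)
      (h := fun a p => better a.1 p.1 p.2) Primrec.snd (Primrec.const 0) hb2
  exact h

theorem prim_alg : Primrec alg := by
  refine Primrec.list_map (f := fun l : List ℤ => List.range (l.length + (bD l + 1)))
    (g := fun l k => fcoef l (best l (bW l)) k) (Primrec.list_range.comp prim_size) ?_
  exact prim_fcoef.comp (Primrec.pair (Primrec.pair Primrec.fst
    ((prim_best.comp Primrec.id prim_bW).comp Primrec.fst)) Primrec.snd)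

/-! ### Correctness -/

/-- The factor with code `t`. -/
noncomputable def Tp (l : List ℤ) (t : ℕ) : ℤ[X] := ∑ i ∈ Finset.range (bD l + 1), C (tau l t i) * X ^ i

lemma coeff_Tp (l : List ℤ) (t i : ℕ) : (Tp l t).coeff i = tau l t i := by
  unfold Tp
  rw [coeff_sumP]
  split_ifs with h
  · rfl
  · rw [tau, if_neg h]

lemma coeff_prod (l : List ℤ) (t k : ℕ) : (poly l * Tp l t).coeff k = fcoef l t k := by
  rw [coeff_mul, Finset.Nat.sum_antidiagonal_eq_sum_range_succ_mk]
  unfold fcoef
  refine Finset.sum_congr rfl fun i _ => ?_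
  simp only
  rw [coeff_poly, coeff_Tp]

lemma natDegree_prod (l : List ℤ) (t : ℕ) : (poly l * Tp l t).natDegree < l.length + (bD l + 1) := by
  refine natDegree_mul_le.trans_lt ?_
  have h1 : (Tp l t).natDegree < bD l + 1 := natDegree_sumP_lt _ _ (Nat.succ_pos _)
  rcases Nat.eq_zero_or_pos l.length with h | h
  · have : poly l = 0 := by
      unfold poly
      rw [h]
      simp
    rw [this, natDegree_zero]
    omega
  · have h2 : (poly l).natDegree < l.length := natDegree_sumP_lt _ _ h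
    omega

lemma lam_eq (l : List ℤ) (t : ℕ) : lam l t = len (poly l * Tp l t) := by
  rw [len_eq_range _ _ (natDegree_prod l t)]
  unfold lam
  refine Finset.sum_congr rfl fun i _ => ?_
  rw [coeff_prod]

lemma poly_alg (l : List ℤ) : poly (alg l) = poly l * Tp l (best l (bW l)) := by
  ext k
  rw [coeff_poly, coeff_prod]
  unfold alg
  rcases Nat.lt_or_ge k (l.length + (bD l + 1)) with h | h
  · rw [List.getD_eq_getElem _ _ (by simpa using h), List.getElem_map, List.getElem_range]
  · rw [List.getD_eq_default _ _ (by simpa using h), ← coeff_prod]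
    exact (coeff_eq_zero_of_natDegree_lt ((natDegree_prod l _).trans_le h)).symm

lemma best_spec (l : List ℤ) (n : ℕ) : ∀ t < n, lam l t ≠ 0 → lam l (best l n) ≠ 0 ∧ lam l (best l n) ≤ lam l t := by
  induction n with
  | zero => intro t ht; omega
  | succ n ih =>
    intro t ht h0
    have hb : best l (n + 1) = better l n (best l n) := rfl
    rw [hb]
    unfold better
    rcases Nat.lt_succ_iff_lt_or_eq.1 ht with h | h
    · obtain ⟨h1, h2⟩ := ih t h h0
      split_ifs with h3
      · refine ⟨h3.1, ?_⟩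
        rcases h3.2 with h4 | h4
        · exact absurd h4 h1
        · exact h4.le.trans h2
      · exact ⟨h1, h2⟩
    · subst h
      split_ifs with h3
      · exact ⟨h3.1, le_rfl⟩
      · push Not at h3
        exact h3 h0

lemma exists_digits (b m : ℕ) (hb : 0 < b) : ∀ a : ℕ → ℕ, (∀ i < m, a i < b) →
    ∃ t < b ^ m, ∀ i < m, t / b ^ i % b = a i := by
  induction m with
  | zero => intro a _; exact ⟨0, by simp, fun i hi => by omega⟩
  | succ m ih =>
    intro a ha
    obtain ⟨t, ht, h⟩ := ih (fun i => a (i + 1)) (fun i hi => ha (i + 1) (by omega))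
    refine ⟨a 0 + b * t, ?_, ?_⟩
    · have h1 := ha 0 (by omega)
      calc a 0 + b * t < b + b * t := by omega
        _ = b * (t + 1) := by ring
        _ ≤ b * b ^ m := Nat.mul_le_mul_left _ ht
        _ = b ^ (m + 1) := by ring
    · intro i hi
      rcases Nat.eq_zero_or_pos i with h1 | h1
      · subst h1
        rw [pow_zero, Nat.div_one, Nat.add_mul_mod_self_left]
        exact Nat.mod_eq_of_lt (ha 0 (by omega))
      · obtain ⟨j, rfl⟩ : ∃ j, i = j + 1 := ⟨i - 1, by omega⟩
        rw [pow_succ', ← Nat.div_div_eq_div_mul, Nat.add_mul_div_left _ _ hb,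
          Nat.div_eq_of_lt (ha 0 (by omega)), zero_add]
        exact h j (by omega)

lemma bB_eq (l : List ℤ) : len (poly l) = bB l := by
  rcases Nat.eq_zero_or_pos l.length with h | h
  · have h1 : poly l = 0 := by
      unfold poly
      rw [h]
      simp
    rw [h1, len_zero, bB, h]
    simp
  · have h1 : (poly l).natDegree < l.length := natDegree_sumP_lt _ _ h
    rw [len_eq_range _ _ h1, bB]
    refine Finset.sum_congr rfl fun i _ => ?_
    rw [← coeff_poly]

theorem alg_spec (l : List ℤ) (hP : Irreducible (poly l)) (hd : (poly l).natDegree ≠ 0)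
    (hlc : ¬ IsUnit (poly l).leadingCoeff) :
    poly (alg l) ≠ 0 ∧ poly l ∣ poly (alg l) ∧
      ∀ F : ℤ[X], F ≠ 0 → poly l ∣ F → len (poly (alg l)) ≤ len F := by
  obtain ⟨F, hF⟩ := exists_isMin hP.ne_zero
  obtain ⟨T, hT⟩ := hF.dvd
  have hT0 : T ≠ 0 := by
    rintro rfl
    rw [mul_zero] at hT
    exact hF.ne hT
  have hl0 : 0 < l.length := by
    by_contra hcon
    apply hP.ne_zero
    unfold poly
    have : l.length = 0 := by omega
    rw [this]
    simp
  have hdeg : (poly l).natDegree ≤ l.length := by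
    have h1 : (poly l).natDegree < l.length := natDegree_sumP_lt _ _ hl0
    exact h1.le
  have hFD : F.natDegree ≤ bD l := degree_bound hP hd hlc hF hdeg (bB_eq l).le
  have hTD : T.natDegree ≤ bD l := by
    rw [hT, natDegree_mul hP.ne_zero hT0] at hFD
    omega
  have hP0 : (poly l).coeff 0 ≠ 0 := by
    intro h
    have h1 : X ∣ poly l := X_dvd_iff.2 h
    obtain ⟨Q, hQ⟩ := h1
    rcases hP.isUnit_or_isUnit hQ with h2 | h2
    · exact not_isUnit_X h2
    · apply not_dvd_X hlc
      obtain ⟨u, rfl⟩ := h2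
      exact ⟨((u⁻¹ : ℤ[X]ˣ) : ℤ[X]), by rw [hQ, mul_assoc, Units.mul_inv, mul_one]⟩
  have hFB : len F ≤ bB l := by
    rw [← bB_eq]
    exact hF.len_le _ hP.ne_zero dvd_rfl
  have hTC : ∀ i, (T.coeff i).natAbs ≤ bC l := by
    intro i
    rcases Nat.lt_or_ge T.natDegree i with h | h
    · rw [coeff_eq_zero_of_natDegree_lt h]
      exact Nat.zero_le _
    · refine (coeff_bound hP0 (bB_eq l).le (hT ▸ hFB) i).trans ?_
      unfold bC
      exact Nat.mul_le_mul_left _ (Nat.pow_le_pow_right (Nat.succ_pos _) (h.trans hTD))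
  obtain ⟨t, ht, hdig⟩ := exists_digits (2 * bC l + 1) (bD l + 1) (Nat.succ_pos _)
    (fun i => (T.coeff i + bC l).toNat) (fun i _ => by
      have := hTC i
      omega)
  have hTt : Tp l t = T := by
    ext i
    rw [coeff_Tp]
    unfold tau
    split_ifs with h
    · rw [hdig i h]
      have := hTC i
      omega
    · exact (coeff_eq_zero_of_natDegree_lt (by omega)).symm
  have hlam : lam l t = len F := by rw [lam_eq, hTt, ← hT]
  obtain ⟨h1, h2⟩ := best_spec l (bW l) t ht (by rw [hlam]; exact (len_pos hF.ne).ne')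
  rw [lam_eq, ← poly_alg] at h1 h2
  refine ⟨?_, ?_, fun F' h3 h4 => ?_⟩
  · intro h
    rw [h, len_zero] at h1
    exact h1 rfl
  · rw [poly_alg]
    exact dvd_mul_right _ _
  · rw [hlam] at h2
    exact h2.trans (hF.len_le F' h3 h4)

end Pool.Agent.N773.ML
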